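import Pool.Agent.Results.MP_582b9d_gt.NoTrInd

/-!
# A metric space with a zero-dimensional compactification which is strongly infinite-dimensional
-/

set_option autoImplicit false

namespace Pool.Agent.Results.MP_582b9d_gt.StronglyInfinite

open Set Topology Pool.Agent.Results.MP_582b9d_gt.NoTrInd

/-- `X` has a compactification `K` (a compact Hausdorff space containing a dense copy of `X`) with
`Ind K ≤ 0`. -/
def HasZeroDimCompactification (X : Type) [TopologicalSpace X] : Prop :=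
  ∃ (K : Type) (_ : TopologicalSpace K) (e : X → K),
    CompactSpace K ∧ T2Space K ∧ IsEmbedding e ∧ DenseRange e ∧ TrIndLE 0 K

/-- `X` is weakly infinite-dimensional in the sense of Smirnov: for every sequence of pairs of
disjoint closed sets `A i`, `B i` there are open sets `U i ⊇ A i` and `V i ⊇ B i`, disjoint for
every `i`, such that already finitely many of the sets `U i ∪ V i` cover `X` (the complements of
`U i ∪ V i` are partitions between `A i` and `B i`, finitely many of which have empty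
intersection). -/
def SWeaklyInfiniteDimensional (X : Type) [TopologicalSpace X] : Prop :=
  ∀ A B : ℕ → Set X, (∀ i, IsClosed (A i) ∧ IsClosed (B i) ∧ Disjoint (A i) (B i)) →
    ∃ U V : ℕ → Set X, (∀ i, IsOpen (U i) ∧ IsOpen (V i) ∧ Disjoint (U i) (V i) ∧
      A i ⊆ U i ∧ B i ⊆ V i) ∧ ∃ N : ℕ, ∀ x, ∃ i < N, x ∈ U i ∨ x ∈ V i

theorem trIndLE_zero (K : Type) [TopologicalSpace K] [CompactSpace K] [T2Space K]
    [TotallyDisconnectedSpace K] : TrIndLE 0 K := by
  rw [TrIndLE]
  intro A V hA hV hAV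
  obtain ⟨C, hC, hAC, hCV⟩ := exists_clopen_of_closed_subset_open hA hV hAV
  exact ⟨C, hC.isOpen, hAC, hCV, Or.inl hC.frontier_eq⟩

open Pool.Agent.Helper520.MZ in
/-- simultaneous partitions -/
theorem lev_of_cover {Y : Type} [TopologicalSpace Y] (h : ℕ → Y → ℝ) (M : Set Y)
    (U V : ℕ → Set Y) (n : ℕ) (hU : ∀ i, IsOpen (U i)) (hV : ∀ i, IsOpen (V i))
    (hUV : ∀ i < n, M ∩ U i ∩ V i = ∅) (h1 : ∀ i < n, ∀ x ∈ M, h i x ≤ 1 / 3 → x ∈ U i)
    (h2 : ∀ i < n, ∀ x ∈ M, 2 / 3 ≤ h i x → x ∈ V i) :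
    ∀ k ≤ n, Lev h M k {x ∈ M | ∀ i < k, x ∉ U i ∧ x ∉ V i} := by
  intro k
  induction k with
  | zero =>
    intro _
    show {x ∈ M | ∀ i < 0, x ∉ U i ∧ x ∉ V i} = M
    ext x
    simp
  | succ k ih =>
    intro hk
    refine ⟨_, U k, V k, ih (by omega), hU k, hV k, ?_, ?_, ?_, ?_⟩
    · rw [eq_empty_iff_forall_notMem]
      rintro x ⟨⟨⟨hx, -⟩, hxU⟩, hxV⟩
      have h3 := hUV k (by omega)
      rw [eq_empty_iff_forall_notMem] at h3
      exact h3 x ⟨⟨hx, hxU⟩, hxV⟩
    · rintro x ⟨hx, -⟩ hxk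
      exact h1 k (by omega) x hx hxk
    · rintro x ⟨hx, -⟩ hxk
      exact h2 k (by omega) x hx hxk
    · ext x
      constructor
      · rintro ⟨hx, hx'⟩
        refine ⟨⟨hx, fun i hi => hx' i (by omega)⟩, ?_⟩
        rintro (hx3 | hx3)
        · exact (hx' k (by omega)).1 hx3
        · exact (hx' k (by omega)).2 hx3
      · rintro ⟨⟨hx, hx'⟩, hx3⟩
        refine ⟨hx, fun i hi => ?_⟩
        rcases Nat.lt_succ_iff_lt_or_eq.1 hi with h4 | h4
        · exact hx' i h4
        · subst h4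
          exact ⟨fun h5 => hx3 (Or.inl h5), fun h5 => hx3 (Or.inr h5)⟩

open Pool.Agent.Helper520.MZ in
/-- There is a metric space which has a compactification of dimension zero (in particular an
admissible one), but is not weakly infinite-dimensional in the sense of Smirnov, and has no large
transfinite dimension. -/
theorem result : ∃ (X : Type) (_ : MetricSpace X),
    HasZeroDimCompactification X ∧ HasAdmissibleCompactification X ∧
      ¬ SWeaklyInfiniteDimensional X ∧ ¬ HasTrInd X := by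
  choose X mX M h hLip hind hcube using fun n => machine n Unit
  let m : MetricSpace (Σ n, M n) := Metric.Sigma.metricSpace
  have hbase : ∀ p : (Σ n, M n), ∀ O : Set (Σ n, M n), IsOpen O → p ∈ O →
      ∃ C : Set (Σ n, M n), IsClopen C ∧ p ∈ C ∧ C ⊆ O := by
    rintro ⟨n, p⟩ O hO hp
    have h1 : IsOpen (Sigma.mk n ⁻¹' O) := hO.preimage continuous_sigmaMk
    obtain ⟨O', hO', hOO'⟩ := isOpen_induced_iff.1 h1
    have hpO' : (p : X n) ∈ O' := by
      have : p ∈ Subtype.val ⁻¹' O' := by rw [hOO']; exact hp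
      exact this
    obtain ⟨V, hV, hpV, hVO, hMV⟩ := hind n p O' hO' hpO'
    have hclopen : IsClopen (Subtype.val ⁻¹' V : Set (M n)) := by
      refine ⟨?_, hV.preimage continuous_subtype_val⟩
      have : (Subtype.val ⁻¹' V : Set (M n)) = Subtype.val ⁻¹' (closure V) := by
        ext y
        exact ⟨fun hy => subset_closure hy, fun hy => hMV ⟨y.2, hy⟩⟩
      rw [this]
      exact isClosed_closure.preimage continuous_subtype_val
    refine ⟨Sigma.mk n '' (Subtype.val ⁻¹' V), ?_, ⟨p, hpV, rfl⟩, ?_⟩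
    · exact ⟨Topology.IsClosedEmbedding.sigmaMk.isClosedMap _ hclopen.1,
        isOpenMap_sigmaMk _ hclopen.2⟩
    · rintro _ ⟨y, hy, rfl⟩
      have : y ∈ Subtype.val ⁻¹' O' := hVO hy
      rw [hOO'] at this
      exact this
  have hne : ∀ n, ¬ Lev (h n) (M n) n ∅ := fun n => Lev.not_empty (hLip n) n (hcube n)
  refine ⟨Σ n, M n, m, ?_, ?_, ?_, ?_⟩
  · obtain ⟨K, tK, e, h1, h2, h3, h4, h5⟩ :=
      @exists_compactification (Σ n, M n) _ inferInstance hbase
    exact ⟨K, tK, e, h1, h2, h4, h5, trIndLE_zero K⟩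
  · exact @hasAdmissibleCompactification (Σ n, M n) _ inferInstance hbase
  · intro hS
    let H : ℕ → (Σ n, M n) → ℝ := fun k p => if k < p.1 then h p.1 k p.2 else 1 / 2
    have hH : ∀ k, Continuous (H k) := by
      intro k
      rw [continuous_sigma_iff]
      intro n
      by_cases hn : k < n
      · simp only [H, if_pos hn]
        rw [Metric.continuous_iff]
        intro b ε hε
        refine ⟨ε, hε, fun a ha => ?_⟩
        rw [Real.dist_eq]
        exact (hLip n k a b).trans_lt ha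
      · simp only [H, if_neg hn]
        exact continuous_const
    obtain ⟨U, V, hUV, N, hN⟩ := hS (fun k => {p | H k p ≤ 1 / 3}) (fun k => {p | 2 / 3 ≤ H k p})
      (fun k => ⟨isClosed_le (hH k) continuous_const, isClosed_le continuous_const (hH k), by
        rw [Set.disjoint_left]
        intro p hp hp'
        have h1 : H k p ≤ 1 / 3 := hp
        have h2 : 2 / 3 ≤ H k p := hp'
        linarith⟩)
    -- open sets of `X N`
    have hop : ∀ W : Set (Σ n, M n), IsOpen W → ∃ W' : Set (X N), IsOpen W' ∧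
        ∀ x : M N, (x : X N) ∈ W' ↔ (⟨N, x⟩ : Σ n, M n) ∈ W := by
      intro W hW
      have h1 : IsOpen (Sigma.mk N ⁻¹' W) := hW.preimage continuous_sigmaMk
      obtain ⟨W', hW', hWW'⟩ := isOpen_induced_iff.1 h1
      refine ⟨W', hW', fun x => ?_⟩
      have h2 : x ∈ Subtype.val ⁻¹' W' ↔ x ∈ Sigma.mk N ⁻¹' W := by rw [hWW']
      exact h2
    choose U' hU' hUU' using fun k => hop (U k) (hUV k).1
    choose V' hV' hVV' using fun k => hop (V k) (hUV k).2.1
    have hL := lev_of_cover (h N) (M N) U' V' N hU' hV'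
      (fun i _ => by
        rw [eq_empty_iff_forall_notMem]
        rintro x ⟨⟨hx, hxU⟩, hxV⟩
        exact Set.disjoint_left.1 (hUV i).2.2.1 ((hUU' i ⟨x, hx⟩).1 hxU) ((hVV' i ⟨x, hx⟩).1 hxV))
      (fun i hi x hx hxi => by
        refine (hUU' i ⟨x, hx⟩).2 ((hUV i).2.2.2.1 ?_)
        show H i ⟨N, ⟨x, hx⟩⟩ ≤ 1 / 3
        simp only [H, if_pos hi]
        exact hxi)
      (fun i hi x hx hxi => by
        refine (hVV' i ⟨x, hx⟩).2 ((hUV i).2.2.2.2 ?_)
        show 2 / 3 ≤ H i ⟨N, ⟨x, hx⟩⟩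
        simp only [H, if_pos hi]
        exact hxi) N le_rfl
    have hempty : {x ∈ M N | ∀ i < N, x ∉ U' i ∧ x ∉ V' i} = (∅ : Set (X N)) := by
      rw [eq_empty_iff_forall_notMem]
      rintro x ⟨hx, hx'⟩
      obtain ⟨i, hi, hxi⟩ := hN ⟨N, ⟨x, hx⟩⟩
      rcases hxi with hxi | hxi
      · exact (hx' i hi).1 ((hUU' i ⟨x, hx⟩).2 hxi)
      · exact (hx' i hi).2 ((hVV' i ⟨x, hx⟩).2 hxi)
    rw [hempty] at hL
    exact hne N hL
  · rintro ⟨α, hα⟩
    refine descent X M h hLip hne α 0 (Σ n, M n)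
      (Sigma.map id fun n (x : M n) => (x : X n)) ?_ ?_ hα
    · exact (isEmbedding_sigmaMap Function.injective_id).2 fun n => IsEmbedding.subtypeVal
    · intro n _
      show {x | ∃ y : Σ n, M n, (⟨y.1, y.2⟩ : Σ n, X n) = ⟨n, x⟩} = M n
      ext x
      constructor
      · rintro ⟨⟨n', y⟩, hy⟩
        simp only [Sigma.mk.injEq] at hy
        obtain ⟨rfl, hy⟩ := hy
        rw [← eq_of_heq hy]
        exact y.2
      · intro hx
        exact ⟨⟨n, x, hx⟩, rfl⟩

end Pool.Agent.Results.MP_582b9d_gt.StronglyInfinite
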